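import Mathlib
import Pool.Agent.H47.WT.Defs
import Pool.Agent.H47.WT.Defs2

namespace Pool.Agent.H47.WT

variable {H : Type} [Group H]

/-- N1: Shapiro for a subgroup of finite index. -/
theorem van_fi (H₀ : Subgroup H) (hfi : H₀.index ≠ 0) (C : Subgroup H₀)
    (h : Van H (H ⧸ C.map H₀.subtype)) : Van H₀ (H₀ ⧸ C) := by
  classical
  have : H₀.FiniteIndex := ⟨hfi⟩
  have : Fintype (H ⧸ H₀) := Fintype.ofFinite _
  obtain ⟨t, ht, ht1⟩ : ∃ t : H ⧸ H₀ → H, (∀ i, ((t i : H) : H ⧸ H₀) = i) ∧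
      t ((1 : H) : H ⧸ H₀) = 1 := by
    refine ⟨fun i => if i = ((1 : H) : H ⧸ H₀) then 1 else i.out, ?_, ?_⟩
    · intro i
      by_cases hi : i = ((1 : H) : H ⧸ H₀)
      · dsimp only
        rw [if_pos hi, hi]
      · dsimp only
        rw [if_neg hi]
        exact QuotientGroup.out_eq' i
    · exact if_pos rfl
  have hk : ∀ (g : H) (i : H ⧸ H₀), (t i)⁻¹ * (g * t (g⁻¹ • i)) ∈ H₀ := by
    intro g i
    rw [← QuotientGroup.eq]
    rw [ht]
    have e : ((g * t (g⁻¹ • i) : H) : H ⧸ H₀) = g • ((t (g⁻¹ • i) : H) : H ⧸ H₀) := rfl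
    rw [e, ht, smul_inv_smul]
  let k : H → H ⧸ H₀ → H₀ := fun g i => ⟨(t i)⁻¹ * (g * t (g⁻¹ • i)), hk g i⟩
  have hkmul : ∀ (g g' : H) (i : H ⧸ H₀), k (g * g') i = k g i * k g' (g⁻¹ • i) := by
    intro g g' i
    apply Subtype.ext
    change (t i)⁻¹ * (g * g' * t ((g * g')⁻¹ • i)) =
      ((t i)⁻¹ * (g * t (g⁻¹ • i))) * ((t (g⁻¹ • i))⁻¹ * (g' * t (g'⁻¹ • g⁻¹ • i)))
    rw [mul_inv_rev, mul_smul]
    group
  obtain ⟨ι, hι⟩ : ∃ ι : H₀ ⧸ C → H ⧸ C.map H₀.subtype,
      ∀ x : H₀, ι (x : H₀ ⧸ C) = ((x : H) : H ⧸ C.map H₀.subtype) := by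
    refine ⟨Quotient.map' (fun x : H₀ => (x : H)) ?_, fun x => rfl⟩
    intro a b hab
    rw [QuotientGroup.leftRel_apply] at hab ⊢
    exact ⟨a⁻¹ * b, hab, rfl⟩
  have hιinj : Function.Injective ι := by
    intro a b
    induction a using QuotientGroup.induction_on with
    | H a =>
      induction b using QuotientGroup.induction_on with
      | H b =>
        rw [hι, hι, QuotientGroup.eq, QuotientGroup.eq]
        rintro ⟨c, hc, hce⟩
        have : c = a⁻¹ * b := Subtype.ext hce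
        rw [← this]
        exact hc
  have hιeq : ∀ (g : H₀) (y : H₀ ⧸ C), ι (g • y) = (g : H) • ι y := by
    intro g y
    induction y using QuotientGroup.induction_on with
    | H y =>
      rw [hι]
      change ι ((g * y : H₀) : H₀ ⧸ C) = _
      rw [hι]
      rfl
  have hne : ∀ (i : H ⧸ H₀), i ≠ ((1 : H) : H ⧸ H₀) → ∀ y y' : H₀ ⧸ C,
      t i • ι y ≠ ι y' := by
    intro i hi y y'
    induction y using QuotientGroup.induction_on with
    | H y =>
      induction y' using QuotientGroup.induction_on with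
      | H y' =>
        rw [hι, hι]
        intro e
        change (((t i * y : H)) : H ⧸ C.map H₀.subtype) = _ at e
        rw [QuotientGroup.eq] at e
        obtain ⟨c, _, hc⟩ := e
        apply hi
        rw [← ht i, eq_comm, QuotientGroup.eq, inv_one, one_mul]
        have e2 : t i = (y' : H) * (c : H)⁻¹ * (y : H)⁻¹ := by
          change (c : H) = _ at hc
          rw [hc]
          group
        rw [e2]
        exact H₀.mul_mem (H₀.mul_mem y'.2 (H₀.inv_mem c.2)) (H₀.inv_mem y.2)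
  intro f hf
  -- the induced cocycle
  let F : H → (H ⧸ C.map H₀.subtype) →₀ ℤ := fun g =>
    ∑ i : H ⧸ H₀, ((f (k g i)).mapDomain ι).mapDomain (fun x => t i • x)
  have hF : Coc F := by
    intro g g'
    change ∑ i : H ⧸ H₀, ((f (k (g * g') i)).mapDomain ι).mapDomain (fun x => t i • x) =
      ∑ i : H ⧸ H₀, ((f (k g i)).mapDomain ι).mapDomain (fun x => t i • x) +
      (∑ i : H ⧸ H₀, ((f (k g' i)).mapDomain ι).mapDomain (fun x => t i • x)).mapDomain
        (fun x => g • x)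
    have e1 : (∑ i : H ⧸ H₀, ((f (k g' i)).mapDomain ι).mapDomain (fun x => t i • x)).mapDomain
        (fun x => g • x) = ∑ i : H ⧸ H₀,
          (((f (k g' (g⁻¹ • i))).mapDomain ι).mapDomain (fun x => t (g⁻¹ • i) • x)).mapDomain
            (fun x => g • x) := by
      rw [Finsupp.mapDomain_finsetSum]
      exact (Equiv.sum_comp (MulAction.toPerm g⁻¹ : Equiv.Perm (H ⧸ H₀)) (fun i =>
        (((f (k g' i)).mapDomain ι).mapDomain (fun x => t i • x)).mapDomain
            (fun x => g • x))).symm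
    rw [e1, ← Finset.sum_add_distrib]
    apply Finset.sum_congr rfl
    intro i _
    rw [hkmul, hf, Finsupp.mapDomain_add, Finsupp.mapDomain_add]
    congr 1
    rw [← Finsupp.mapDomain_comp, ← Finsupp.mapDomain_comp, ← Finsupp.mapDomain_comp,
      ← Finsupp.mapDomain_comp]
    congr 1
    funext y
    change t i • ι (k g i • y) = g • t (g⁻¹ • i) • ι y
    rw [hιeq, ← mul_smul, ← mul_smul]
    congr 1
    change t i * ((t i)⁻¹ * (g * t (g⁻¹ • i))) = _
    group
  obtain ⟨u, hu⟩ := h F hF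
  refine ⟨u.comapDomain ι hιinj.injOn, ?_⟩
  intro g
  have hk1 : k (g : H) ((1 : H) : H ⧸ H₀) = g := by
    apply Subtype.ext
    change (t ((1 : H) : H ⧸ H₀))⁻¹ * ((g : H) * t ((g : H)⁻¹ • ((1 : H) : H ⧸ H₀))) = g
    have e : (g : H)⁻¹ • ((1 : H) : H ⧸ H₀) = ((1 : H) : H ⧸ H₀) := by
      change (((g : H)⁻¹ * 1 : H) : H ⧸ H₀) = _
      rw [QuotientGroup.eq]
      simp
    rw [e, ht1]
    group
  ext y
  have hval : F g (ι y) = f g y := by
    change (∑ i : H ⧸ H₀, ((f (k g i)).mapDomain ι).mapDomain (fun x => t i • x)) (ι y) = _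
    rw [Finsupp.finsetSum_apply, Finset.sum_eq_single ((1 : H) : H ⧸ H₀)]
    · rw [hk1, ht1]
      simp only [one_smul]
      rw [show (fun x : H ⧸ C.map H₀.subtype => x) = id from rfl, Finsupp.mapDomain_id,
        Finsupp.mapDomain_apply hιinj]
    · intro i _ hi
      rw [← Finsupp.mapDomain_comp]
      apply Finsupp.mapDomain_of_notMem_range
      rintro ⟨y', hy'⟩
      exact hne i hi y' y hy'
    · intro hn
      exact absurd (Finset.mem_univ _) hn
  rw [← hval, hu]
  rw [Finsupp.sub_apply, Finsupp.sub_apply, Finsupp.comapDomain_apply]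
  congr 1
  have e1 : ι y = (g : H) • ι (g⁻¹ • y) := by
    rw [← hιeq, smul_inv_smul]
  have e2 : y = g • (g⁻¹ • y) := by rw [smul_inv_smul]
  conv_lhs => rw [e1]
  conv_rhs => rw [e2]
  rw [Finsupp.mapDomain_apply (MulAction.injective (g : H)),
    Finsupp.mapDomain_apply (MulAction.injective g), Finsupp.comapDomain_apply]

end Pool.Agent.H47.WT
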